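import Pool.Agent.H82.C3.Stm

/-! Part DEG of project C3. -/

set_option autoImplicit false

namespace Pool.Agent.H59.C3

open Finset Pool.Agent.H82.C3

/-- `U` -/
def UU (W T : ℕ) (z : ℕ × ℕ × ℕ × ℕ) : ℤ := 3 * mD W T z + 2 * tD W T z - pD W T z ^ 2

lemma UU_sq (W T : ℕ) (z : ℕ × ℕ × ℕ × ℕ) :
    UU W T z ^ 2 = pD W T z ^ 4 - 6 * mD W T z * pD W T z ^ 2 + 4 * nD W T z * pD W T z
      - 3 * mD W T z ^ 2 := by
  simp only [UU, pD, mD, tD, nD, pp, mm, tt, nn]
  ring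

/-- uniform bound for representations, including `N = 0` -/
lemma rep0 (h : S_REP) (W : ℕ) (hW : 1 ≤ W) (ε : ℝ) (hε : 0 < ε) :
    ∃ C : ℝ, 1 ≤ C ∧ ∀ T : ℕ, 1 ≤ T → ∀ k N : ℤ, 1 ≤ k → 0 ≤ N →
      N ≤ 200 * (200 * W * T : ℤ) ^ 12 → ∀ S : Finset (ℤ × ℤ),
      (∀ z ∈ S, z.1 ^ 2 + k * z.2 ^ 2 = N) → (S.card : ℝ) ≤ C * (T : ℝ) ^ ε := by
  obtain ⟨C, hC, hrep⟩ := h (ε / 12) (by positivity)
  refine ⟨max 1 (C * (200 * (200 * W : ℝ) ^ 12) ^ (ε / 12)), le_max_left _ _, ?_⟩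
  intro T hT k N hk hN hNle S hS
  have hT1 : (1 : ℝ) ≤ T := by exact_mod_cast hT
  have hTε : (1 : ℝ) ≤ (T : ℝ) ^ ε := Real.one_le_rpow hT1 hε.le
  rcases eq_or_lt_of_le hN with hN0 | hN0
  · have hcard : S.card ≤ 1 := by
      rw [card_le_one]
      intro z hz w hw
      have e1 := hS z hz
      have e2 := hS w hw
      rw [← hN0] at e1 e2
      have z1 : z.1 = 0 := by
        have : z.1 ^ 2 ≤ 0 := by nlinarith [sq_nonneg z.2, mul_nonneg (by omega : (0:ℤ) ≤ k) (sq_nonneg z.2)]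
        exact pow_eq_zero_iff (two_ne_zero) |>.1 (le_antisymm this (sq_nonneg _))
      have w1 : w.1 = 0 := by
        have : w.1 ^ 2 ≤ 0 := by nlinarith [sq_nonneg w.2, mul_nonneg (by omega : (0:ℤ) ≤ k) (sq_nonneg w.2)]
        exact pow_eq_zero_iff (two_ne_zero) |>.1 (le_antisymm this (sq_nonneg _))
      have z2 : z.2 = 0 := by
        rw [z1] at e1
        have : k * z.2 ^ 2 = 0 := by linarith
        rcases mul_eq_zero.1 this with h | h
        · omega
        · exact pow_eq_zero_iff (two_ne_zero) |>.1 h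
      have w2 : w.2 = 0 := by
        rw [w1] at e2
        have : k * w.2 ^ 2 = 0 := by linarith
        rcases mul_eq_zero.1 this with h | h
        · omega
        · exact pow_eq_zero_iff (two_ne_zero) |>.1 h
      ext
      · rw [z1, w1]
      · rw [z2, w2]
    calc (S.card : ℝ) ≤ 1 := by exact_mod_cast hcard
      _ = 1 * 1 := by ring
      _ ≤ max 1 (C * (200 * (200 * W : ℝ) ^ 12) ^ (ε / 12)) * (T : ℝ) ^ ε :=
          mul_le_mul (le_max_left _ _) hTε (by norm_num) (by positivity)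
  · lift k to ℕ using by omega
    lift N to ℕ using hN
    have h1 := hrep k N (by exact_mod_cast hk) (by exact_mod_cast hN0) S hS
    have h2 : (N : ℝ) ≤ 200 * (200 * W * T : ℝ) ^ 12 := by exact_mod_cast hNle
    calc (S.card : ℝ) ≤ C * (N : ℝ) ^ (ε / 12) := h1
      _ ≤ C * (200 * (200 * W * T : ℝ) ^ 12) ^ (ε / 12) := by
          apply mul_le_mul_of_nonneg_left _ hC.le
          exact Real.rpow_le_rpow (by positivity) h2 (by positivity)
      _ = C * (200 * (200 * W : ℝ) ^ 12) ^ (ε / 12) * (T : ℝ) ^ ε := by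
          have e1 : (200 * (200 * W * T : ℝ) ^ 12) = (200 * (200 * W : ℝ) ^ 12) * (T : ℝ) ^ 12 := by ring
          rw [e1, Real.mul_rpow (by positivity) (by positivity), ← Real.rpow_natCast (T : ℝ) 12,
            ← Real.rpow_mul (by positivity)]
          have : ((12 : ℕ) : ℝ) * (ε / 12) = ε := by push_cast; ring
          rw [this]; ring
      _ ≤ max 1 (C * (200 * (200 * W : ℝ) ^ 12) ^ (ε / 12)) * (T : ℝ) ^ ε :=
          mul_le_mul_of_nonneg_right (le_max_right _ _) (by positivity)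

/-- data with given `(p, m, t)` -/
def Fb (W T : ℕ) (p m t : ℤ) : Finset (ℕ × ℕ × ℕ × ℕ) :=
  (dat T).filter (fun z => pD W T z = p ∧ mD W T z = m ∧ tD W T z = t)

lemma Fb_card (h2 : S_BOX) (W T R : ℕ) (hW : 1 ≤ W) (hT : 1 ≤ T)
    (hR : ∀ k N : ℤ, 1 ≤ k → 0 ≤ N →
      N ≤ 200 * (200 * W * T : ℤ) ^ 12 → ∀ S : Finset (ℤ × ℤ),
      (∀ z ∈ S, z.1 ^ 2 + k * z.2 ^ 2 = N) → S.card ≤ R) (p m t : ℤ) :
    (Fb W T p m t).card ≤ R := by
  classical
  rcases (Fb W T p m t).eq_empty_or_nonempty with he | ⟨z₀, hz₀⟩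
  · rw [he]; simp
  have hbox := h2 W T hW hT
  have hWT : (1 : ℤ) ≤ 200 * W * T := by
    have : 1 ≤ 200 * W * T := by
      have : 1 ≤ W * T := Nat.mul_pos hW hT
      nlinarith
    exact_mod_cast this
  have hu12 : (200 * W * T : ℤ) ^ 2 ≤ (200 * W * T : ℤ) ^ 12 := pow_le_pow_right₀ hWT (by norm_num)
  have hpb : 3 * (200 * W * T : ℤ) ^ 2 ≤ p ∧ 10 * p ≤ 32 * (200 * W * T : ℤ) ^ 2 := by
    rw [Fb, mem_filter] at hz₀
    have := (hbox z₀ hz₀.1 _ rfl).1
    rw [hz₀.2.1] at this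
    exact this
  have hp0 : p ≠ 0 := by
    have : 0 < (200 * W * T : ℤ) ^ 2 := by positivity
    omega
  set f : ℕ × ℕ × ℕ × ℕ → ℤ × ℤ := fun z => (2 * ea W T z.1 + eb W T z.2.1, eb W T z.2.1) with hf
  have hinj : Set.InjOn f (Fb W T p m t : Set (ℕ × ℕ × ℕ × ℕ)) := by
    intro z hz w hw hzw
    have hz' : z ∈ Fb W T p m t := by exact_mod_cast hz
    have hw' : w ∈ Fb W T p m t := by exact_mod_cast hw
    rw [Fb, mem_filter] at hz' hw'
    obtain ⟨-, zp, zm, zt⟩ := hz'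
    obtain ⟨-, wp, wm, wt⟩ := hw'
    simp only [hf, Prod.mk.injEq] at hzw
    obtain ⟨e1, e2⟩ := hzw
    have ea' : ea W T z.1 = ea W T w.1 := by linarith
    have hWz : (W : ℤ) ≠ 0 := by
      have : (1 : ℤ) ≤ W := by exact_mod_cast hW
      omega
    have i1 : (z.1 : ℤ) = w.1 := by
      have ea'' := ea'
      simp only [ea] at ea''
      have : 2 * (W : ℤ) * z.1 = 2 * W * w.1 := by linarith
      exact mul_left_cancel₀ (mul_ne_zero two_ne_zero hWz) this
    have i2 : (z.2.1 : ℤ) = w.2.1 := by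
      have e2' := e2
      simp only [eb] at e2'
      have : 2 * (W : ℤ) * z.2.1 = 2 * W * w.2.1 := by linarith
      exact mul_left_cancel₀ (mul_ne_zero two_ne_zero hWz) this
    -- determinant
    simp only [mD, tD, pD, mm, tt, pp] at zp zm zt wp wm wt
    rw [ea', e2] at zm zt
    set a := ea W T w.1
    set b := eb W T w.2.1
    have hx : p * ex W T z.2.2.1 = p * ex W T w.2.2.1 := by
      rw [← wp]
      linear_combination (a + 2 * b) * (zm - wm) + b * (zt - wt)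
    have hy : p * ey W z.2.2.2 = p * ey W w.2.2.2 := by
      rw [← wp]
      linear_combination a * (zt - wt) - (b - a) * (zm - wm)
    have hx' := mul_left_cancel₀ hp0 hx
    have hy' := mul_left_cancel₀ hp0 hy
    simp only [ex] at hx'
    simp only [ey] at hy'
    have i3 : (z.2.2.1 : ℤ) = w.2.2.1 := by
      have : 2 * (W : ℤ) * z.2.2.1 = 2 * W * w.2.2.1 := by linarith
      exact mul_left_cancel₀ (mul_ne_zero two_ne_zero hWz) this
    have i4 : (z.2.2.2 : ℤ) = w.2.2.2 := by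
      have : 2 * (W : ℤ) * z.2.2.2 = 2 * W * w.2.2.2 := by linarith
      exact mul_left_cancel₀ (mul_ne_zero two_ne_zero hWz) this
    ext
    · exact_mod_cast i1
    · exact_mod_cast i2
    · exact_mod_cast i3
    · exact_mod_cast i4
  rw [← card_image_of_injOn hinj]
  apply hR 3 (4 * p) (by norm_num) (by nlinarith [sq_nonneg (200 * W * T : ℤ)]) (by nlinarith)
  intro v hv
  rw [mem_image] at hv
  obtain ⟨z, hz, rfl⟩ := hv
  rw [Fb, mem_filter] at hz
  have := hz.2.1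
  simp only [pD, pp] at this
  rw [← this]
  simp only [hf]
  ring

/-- pairs with the same `(m,n)` -/
def Prs (W T : ℕ) : Finset ((ℕ × ℕ × ℕ × ℕ) × (ℕ × ℕ × ℕ × ℕ)) :=
  (dat T ×ˢ dat T).filter (fun z => mD W T z.1 = mD W T z.2 ∧ nD W T z.1 = nD W T z.2)

lemma dat_card (T : ℕ) : (dat T).card = T ^ 8 := by
  simp only [dat, card_product, card_range]
  ring

lemma eq_card (h2 : S_BOX) (W T R : ℕ) (hW : 1 ≤ W) (hT : 1 ≤ T)
    (hR : ∀ k N : ℤ, 1 ≤ k → 0 ≤ N →
      N ≤ 200 * (200 * W * T : ℤ) ^ 12 → ∀ S : Finset (ℤ × ℤ),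
      (∀ z ∈ S, z.1 ^ 2 + k * z.2 ^ 2 = N) → S.card ≤ R) :
    ((Prs W T).filter (fun z => pD W T z.1 = pD W T z.2)).card ≤ 2 * R * T ^ 8 := by
  classical
  have hfib := Fb_card h2 W T R hW hT hR
  have := card_le_mul_card_image (f := Prod.fst)
    ((Prs W T).filter (fun z => pD W T z.1 = pD W T z.2)) (2 * R) ?_
  · refine this.trans (Nat.mul_le_mul_left _ ?_)
    rw [← dat_card T]
    apply card_le_card
    intro z hz
    rw [mem_image] at hz
    obtain ⟨v, hv, rfl⟩ := hz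
    rw [mem_filter, Prs, mem_filter, mem_product] at hv
    exact hv.1.1.1
  · intro z hz
    have hsub : ((Prs W T).filter (fun z => pD W T z.1 = pD W T z.2)).filter (fun v => v.1 = z) ⊆
        ((Fb W T (pD W T z) (mD W T z) (tD W T z)) ∪
          (Fb W T (pD W T z) (mD W T z) (pD W T z ^ 2 - 3 * mD W T z - tD W T z))).image
          (fun w => (z, w)) := by
      intro v hv
      rw [mem_filter, mem_filter, Prs, mem_filter, mem_product] at hv
      obtain ⟨⟨⟨⟨hv1, hv2⟩, hm, hn⟩, hp⟩, rfl⟩ := hv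
      rw [mem_image]
      refine ⟨v.2, ?_, rfl⟩
      rw [mem_union]
      have e1 := UU_sq W T v.1
      have e2 := UU_sq W T v.2
      rw [← hm, ← hn, ← hp, ← e1] at e2
      rcases sq_eq_sq_iff_eq_or_eq_neg.1 e2 with h | h
      · left
        rw [Fb, mem_filter]
        refine ⟨hv2, hp.symm, hm.symm, ?_⟩
        simp only [UU] at h
        rw [← hm, ← hp] at h
        linarith
      · right
        rw [Fb, mem_filter]
        refine ⟨hv2, hp.symm, hm.symm, ?_⟩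
        simp only [UU] at h
        rw [← hm, ← hp] at h
        linarith
    refine (card_le_card hsub).trans (card_image_le.trans ((card_union_le _ _).trans ?_))
    have := hfib (pD W T z) (mD W T z) (tD W T z)
    have := hfib (pD W T z) (mD W T z) (pD W T z ^ 2 - 3 * mD W T z - tD W T z)
    omega

lemma gt_card (h2 : S_BOX) (W T R : ℕ) (hW : 1 ≤ W) (hT : 1 ≤ T)
    (hR : ∀ k N : ℤ, 1 ≤ k → 0 ≤ N →
      N ≤ 200 * (200 * W * T : ℤ) ^ 12 → ∀ S : Finset (ℤ × ℤ),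
      (∀ z ∈ S, z.1 ^ 2 + k * z.2 ^ 2 = N) → S.card ≤ R) :
    ((Prs W T).filter (fun z => pD W T z.2 < pD W T z.1)).card ≤
      R ^ 3 * (200 * (200 * W * T) ^ 8) := by
  classical
  have hfib := Fb_card h2 W T R hW hT hR
  have hbox := h2 W T hW hT
  have hWT : (1 : ℤ) ≤ 200 * W * T := by
    have : 1 ≤ 200 * W * T := by
      have : 1 ≤ W * T := Nat.mul_pos hW hT
      nlinarith
    exact_mod_cast this
  set u : ℤ := 200 * W * T with hu
  have hu2 : 1 ≤ u ^ 2 := one_le_pow₀ hWT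
  have hu4 : 1 ≤ u ^ 4 := one_le_pow₀ hWT
  set Q := (Prs W T).filter (fun z => pD W T z.2 < pD W T z.1) with hQ
  have hQmem : ∀ v ∈ Q, v.1 ∈ dat T ∧ v.2 ∈ dat T ∧ mD W T v.1 = mD W T v.2 ∧
      nD W T v.1 = nD W T v.2 ∧ pD W T v.2 < pD W T v.1 := by
    intro v hv
    rw [hQ, mem_filter, Prs, mem_filter, mem_product] at hv
    exact ⟨hv.1.1.1, hv.1.1.2, hv.1.2.1, hv.1.2.2, hv.2⟩
  set g : (ℕ × ℕ × ℕ × ℕ) × (ℕ × ℕ × ℕ × ℕ) → ℤ × ℤ × ℤ :=
    fun v => (pD W T v.1, pD W T v.2, UU W T v.1) with hg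
  have := card_le_mul_card_image (f := g) Q (R ^ 3) ?_
  · refine this.trans (Nat.mul_le_mul_left _ ?_)
    have hsub : Q.image g ⊆ (Icc 1 (4 * u ^ 2)) ×ˢ (Icc 1 (4 * u ^ 2)) ×ˢ
        (Icc (- (4 * u ^ 4)) (4 * u ^ 4)) := by
      intro x hx
      rw [mem_image] at hx
      obtain ⟨v, hv, rfl⟩ := hx
      obtain ⟨h1, h2', -, -, -⟩ := hQmem v hv
      have b1 := hbox v.1 h1 u rfl
      have b2 := hbox v.2 h2' u rfl
      simp only [hg, mem_product, mem_Icc]
      have := abs_le.1 b1.2.2.2.2.2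
      simp only [UU]
      refine ⟨⟨by linarith [b1.1.1], by linarith [b1.1.2]⟩, ⟨by linarith [b2.1.1], by linarith [b2.1.2]⟩,
        this.1, this.2⟩
    refine (card_le_card hsub).trans ?_
    rw [card_product, card_product, Int.card_Icc, Int.card_Icc]
    have e1 : (4 * u ^ 2 + 1 - 1).toNat = 4 * (200 * W * T) ^ 2 := by
      rw [hu]; simp only [add_sub_cancel_right]
      have : (4 * (200 * (W : ℤ) * T) ^ 2) = ((4 * (200 * W * T) ^ 2 : ℕ) : ℤ) := by push_cast; ring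
      rw [this, Int.toNat_natCast]
    have e2 : (4 * u ^ 4 + 1 - -(4 * u ^ 4)).toNat = 8 * (200 * W * T) ^ 4 + 1 := by
      rw [hu]
      have : (4 * (200 * (W : ℤ) * T) ^ 4 + 1 - -(4 * (200 * (W : ℤ) * T) ^ 4)) =
        ((8 * (200 * W * T) ^ 4 + 1 : ℕ) : ℤ) := by push_cast; ring
      rw [this, Int.toNat_natCast]
    rw [e1, e2]
    have hx : 1 ≤ (200 * W * T) ^ 4 := by
      have := hu4
      rw [hu] at this
      exact_mod_cast this
    set X := (200 * W * T) ^ 4 with hX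
    calc 4 * (200 * W * T) ^ 2 * (4 * (200 * W * T) ^ 2 * (8 * X + 1))
        = 16 * X * (8 * X + 1) := by rw [hX]; ring
      _ ≤ 16 * X * (9 * X) := by apply Nat.mul_le_mul_left; omega
      _ ≤ 200 * (200 * W * T) ^ 8 := by
          have : (200 * W * T) ^ 8 = X * X := by rw [hX]; ring
          rw [this]; nlinarith
  · intro x hx
    rw [mem_image] at hx
    obtain ⟨v₀, hv₀, rfl⟩ := hx
    -- now `x = g v₀`
    obtain ⟨a1, a2, a3, a4, a5⟩ := hQmem v₀ hv₀
    have b1 := hbox v₀.1 a1 u rfl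
    have b2 := hbox v₀.2 a2 u rfl
    set p := pD W T v₀.1 with hp
    set p' := pD W T v₀.2 with hp'
    set U := UU W T v₀.1 with hU
    set Nn : ℤ := p * p' * U ^ 2 - p ^ 2 * p' * (p - p') ^ 3 with hNn
    have hppos : 0 < p := by linarith [b1.1.1]
    have hp'pos : 0 < p' := by linarith [b2.1.1]
    have hident : ∀ v ∈ Q, g v = g v₀ →
        (p * UU W T v.2) ^ 2 + (3 * p * (p - p')) * (mD W T v.1 - p * p') ^ 2 = Nn := by
      intro v hv hgv
      obtain ⟨c1, c2, c3, c4, c5⟩ := hQmem v hv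
      simp only [hg, Prod.mk.injEq] at hgv
      obtain ⟨d1, d2, d3⟩ := hgv
      have e1 := UU_sq W T v.1
      have e2 := UU_sq W T v.2
      rw [← c3, ← c4, d2] at e2
      rw [d1, d3] at e1
      rw [← hp, ← hU] at e1
      rw [← hp'] at e2
      rw [hNn]
      linear_combination p ^ 2 * e2 - p * p' * e1
    have hNle : Nn ≤ 200 * u ^ 12 := by
      have hpu : p ≤ 4 * u ^ 2 := by linarith [b1.1.2]
      have k1 : 0 ≤ p ^ 2 * p' * (p - p') ^ 3 := by
        have : 0 < p - p' := by linarith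
        positivity
      have k2 : 10 * p ≤ 32 * u ^ 2 := b1.1.2
      have k3 : 10 * p' ≤ 32 * u ^ 2 := b2.1.2
      have k4 : U ^ 2 ≤ (4 * u ^ 4) ^ 2 := sq_le_sq' (abs_le.1 b1.2.2.2.2.2).1 (abs_le.1 b1.2.2.2.2.2).2
      have k5 : (10 * p) * (10 * p') ≤ (32 * u ^ 2) * (32 * u ^ 2) :=
        mul_le_mul k2 k3 (by linarith) (by positivity)
      have k6 : ((10 * p) * (10 * p')) * U ^ 2 ≤ ((32 * u ^ 2) * (32 * u ^ 2)) * (4 * u ^ 4) ^ 2 :=
        mul_le_mul k5 k4 (sq_nonneg _) (by positivity)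
      have k7 : 100 * (p * p' * U ^ 2) ≤ 16384 * u ^ 12 := by nlinarith
      have k8 : 0 ≤ u ^ 12 := by positivity
      linarith
    set h : (ℕ × ℕ × ℕ × ℕ) × (ℕ × ℕ × ℕ × ℕ) → ℤ × ℤ :=
      fun v => (p * UU W T v.2, mD W T v.1 - p * p') with hh
    have hN0 : 0 ≤ Nn := by
      rw [← hident v₀ hv₀ rfl]
      have : 0 < p - p' := by linarith
      positivity
    have c1 := card_le_mul_card_image (f := h) (Q.filter (fun v => g v = g v₀)) (R ^ 2) ?_
    · have c2 : ((Q.filter (fun v => g v = g v₀)).image h).card ≤ R := by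
        apply hR (3 * p * (p - p')) Nn ?_ hN0 hNle
        · intro x hx
          rw [mem_image] at hx
          obtain ⟨v, hv, rfl⟩ := hx
          rw [mem_filter] at hv
          exact hident v hv.1 hv.2
        · have : 0 < p - p' := by linarith
          have : 0 < 3 * p * (p - p') := by positivity
          linarith
      calc _ ≤ R ^ 2 * ((Q.filter (fun v => g v = g v₀)).image h).card := c1
        _ ≤ R ^ 2 * R := Nat.mul_le_mul_left _ c2
        _ = R ^ 3 := by ring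
    · intro y hy
      rw [mem_image] at hy
      obtain ⟨v₁, hv₁, rfl⟩ := hy
      rw [mem_filter] at hv₁
      obtain ⟨hv₁Q, hgv₁⟩ := hv₁
      have hsub : (Q.filter (fun v => g v = g v₀)).filter (fun v => h v = h v₁) ⊆
          (Fb W T p (mD W T v₁.1) (tD W T v₁.1)) ×ˢ (Fb W T p' (mD W T v₁.1) (tD W T v₁.2)) := by
        intro v hv
        rw [mem_filter, mem_filter] at hv
        obtain ⟨⟨hvQ, hgv⟩, hhv⟩ := hv
        obtain ⟨q1, q2, q3, q4, q5⟩ := hQmem v hvQ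
        obtain ⟨r1, r2, r3, r4, r5⟩ := hQmem v₁ hv₁Q
        simp only [hg, Prod.mk.injEq] at hgv hgv₁
        simp only [hh, Prod.mk.injEq] at hhv
        obtain ⟨g1, g2, g3⟩ := hgv
        obtain ⟨g1', g2', g3'⟩ := hgv₁
        obtain ⟨h1, h2'⟩ := hhv
        have hU' := mul_left_cancel₀ hppos.ne' h1
        have hm : mD W T v.1 = mD W T v₁.1 := by linarith
        rw [mem_product, Fb, Fb, mem_filter, mem_filter]
        refine ⟨⟨q1, g1, hm, ?_⟩, ⟨q2, g2, by rw [← q3]; exact hm, ?_⟩⟩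
        · have e : UU W T v.1 = UU W T v₁.1 := by rw [g3, g3']
          simp only [UU] at e
          rw [hm, g1, g1'] at e
          linarith
        · have e := hU'
          simp only [UU] at e
          rw [← q3, ← r3, hm, g2, g2'] at e
          linarith
      refine (card_le_card hsub).trans ?_
      rw [card_product, pow_two]
      exact Nat.mul_le_mul (hfib _ _ _) (hfib _ _ _)

theorem t_DEG (h1 : S_REP) (h2 : S_BOX) : S_DEG := by
  classical
  intro W hW ε hε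
  obtain ⟨C, hC1, hC⟩ := rep0 h1 W hW (ε / 3) (by positivity)
  refine ⟨(2 + 400 * (200 * W : ℝ) ^ 8) * C ^ 3, by positivity, ?_⟩
  intro T hT
  set X : ℝ := C * (T : ℝ) ^ (ε / 3) with hX
  have hT1 : (1 : ℝ) ≤ T := by exact_mod_cast hT
  have hX1 : 1 ≤ X := by
    have : (1 : ℝ) ≤ (T : ℝ) ^ (ε / 3) := Real.one_le_rpow hT1 (by positivity)
    rw [hX]; nlinarith
  set R : ℕ := ⌊X⌋₊ with hRdef
  have hRX : (R : ℝ) ≤ X := Nat.floor_le (by linarith)
  have hR : ∀ k N : ℤ, 1 ≤ k → 0 ≤ N →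
      N ≤ 200 * (200 * W * T : ℤ) ^ 12 → ∀ S : Finset (ℤ × ℤ),
      (∀ z ∈ S, z.1 ^ 2 + k * z.2 ^ 2 = N) → S.card ≤ R := by
    intro k N hk hN hNle S hS
    exact Nat.le_floor (hC T hT k N hk hN hNle S hS)
  have c1 := eq_card h2 W T R hW hT hR
  have c2 := gt_card h2 W T R hW hT hR
  have c3 : ((Prs W T).filter (fun z => pD W T z.1 < pD W T z.2)).card ≤
      R ^ 3 * (200 * (200 * W * T) ^ 8) := by
    refine le_trans ?_ c2
    apply card_le_card_of_injOn Prod.swap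
    · intro v hv
      have hv' : v ∈ (Prs W T).filter (fun z => pD W T z.1 < pD W T z.2) := by exact_mod_cast hv
      rw [mem_filter, Prs, mem_filter, mem_product] at hv'
      have : v.swap ∈ (Prs W T).filter (fun z => pD W T z.2 < pD W T z.1) := by
        rw [mem_filter, Prs, mem_filter, mem_product]
        exact ⟨⟨⟨hv'.1.1.2, hv'.1.1.1⟩, hv'.1.2.1.symm, hv'.1.2.2.symm⟩, hv'.2⟩
      exact_mod_cast this
    · exact Prod.swap_injective.injOn
  have hunion : Prs W T ⊆ ((Prs W T).filter (fun z => pD W T z.1 = pD W T z.2)) ∪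
      (((Prs W T).filter (fun z => pD W T z.2 < pD W T z.1)) ∪
      ((Prs W T).filter (fun z => pD W T z.1 < pD W T z.2))) := by
    intro v hv
    rw [mem_union, mem_union, mem_filter, mem_filter, mem_filter]
    rcases lt_trichotomy (pD W T v.1) (pD W T v.2) with h | h | h
    · exact Or.inr (Or.inr ⟨hv, h⟩)
    · exact Or.inl ⟨hv, h⟩
    · exact Or.inr (Or.inl ⟨hv, h⟩)
  have c4 : (Prs W T).card ≤ 2 * R * T ^ 8 + 2 * (R ^ 3 * (200 * (200 * W * T) ^ 8)) := by
    have e1 := card_le_card hunion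
    have e2 := card_union_le ((Prs W T).filter (fun z => pD W T z.1 = pD W T z.2))
      (((Prs W T).filter (fun z => pD W T z.2 < pD W T z.1)) ∪
      ((Prs W T).filter (fun z => pD W T z.1 < pD W T z.2)))
    have e3 := card_union_le ((Prs W T).filter (fun z => pD W T z.2 < pD W T z.1))
      ((Prs W T).filter (fun z => pD W T z.1 < pD W T z.2))
    omega
  have c5 : ((Prs W T).card : ℝ) ≤ 2 * R * T ^ 8 + 2 * (R ^ 3 * (200 * (200 * W * T) ^ 8)) := by
    exact_mod_cast c4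
  have hRR : (R : ℝ) ≤ X ^ 3 := hRX.trans (le_self_pow₀ hX1 (by norm_num))
  have hR3 : (R : ℝ) ^ 3 ≤ X ^ 3 := pow_le_pow_left₀ (by positivity) hRX 3
  have hX3 : X ^ 3 = C ^ 3 * (T : ℝ) ^ ε := by
    rw [hX, mul_pow, ← Real.rpow_natCast ((T : ℝ) ^ (ε / 3)) 3, ← Real.rpow_mul (by positivity)]
    have : ε / 3 * ((3 : ℕ) : ℝ) = ε := by push_cast; ring
    rw [this]
  have hT8 : (T : ℝ) ^ (8 + ε) = (T : ℝ) ^ 8 * (T : ℝ) ^ ε := by
    rw [Real.rpow_add (by positivity)]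
    congr 1
    exact_mod_cast Real.rpow_natCast (T : ℝ) 8
  change ((Prs W T).card : ℝ) ≤ _
  calc ((Prs W T).card : ℝ) ≤ 2 * R * T ^ 8 + 2 * (R ^ 3 * (200 * (200 * W * T) ^ 8)) := c5
    _ ≤ 2 * X ^ 3 * T ^ 8 + 2 * (X ^ 3 * (200 * (200 * W * T) ^ 8)) := by gcongr
    _ = (2 + 400 * (200 * W : ℝ) ^ 8) * X ^ 3 * T ^ 8 := by ring
    _ = (2 + 400 * (200 * W : ℝ) ^ 8) * C ^ 3 * (T : ℝ) ^ (8 + ε) := by
        rw [hX3, hT8]; ring

end Pool.Agent.H59.C3
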