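import Pool.Agent.H82.C3.Stm

/-! Part SNG of project C3. -/

set_option autoImplicit false

namespace Pool.Agent.H59.C3

open Finset Polynomial Pool.Agent.H82.C3

theorem t_SNG : S_SNG := by
  intro q hq hq5 a b hp hc S hS
  haveI := hq
  set p : ZMod q := a ^ 2 + a * b + b ^ 2 with hpdef
  have h2 : (2 : ZMod q) ≠ 0 := by
    intro h
    have h' : ((2 : ℕ) : ZMod q) = 0 := by exact_mod_cast h
    rw [ZMod.natCast_eq_zero_iff] at h'
    have := Nat.le_of_dvd (by norm_num) h'
    omega
  have h3 : (3 : ZMod q) ≠ 0 := by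
    intro h
    have h' : ((3 : ℕ) : ZMod q) = 0 := by exact_mod_cast h
    rw [ZMod.natCast_eq_zero_iff] at h'
    have := Nat.le_of_dvd (by norm_num) h'
    omega
  have h4 : (4 : ZMod q) ≠ 0 := by
    have : (4 : ZMod q) = 2 * 2 := by norm_num
    rw [this]; exact mul_ne_zero h2 h2
  -- the part with `m = 0`
  have hA : (S.filter (fun z => a * z.1 - b * z.2 = 0)).card ≤ 2 := by
    have hsub : S.filter (fun z => a * z.1 - b * z.2 = 0) ⊆ {((0 : ZMod q), (0 : ZMod q)), (p * b, p * a)} := by
      intro z hz
      rw [mem_filter] at hz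
      obtain ⟨hzS, hm⟩ := hz
      obtain ⟨h1, -⟩ := hS z hzS
      have hn : (z.1 ^ 2 + z.1 * z.2 + z.2 ^ 2 - ((b - a) * z.1 + (a + 2 * b) * z.2) * p) = 0 := by
        rw [hm] at h1
        have : (z.1 ^ 2 + z.1 * z.2 + z.2 ^ 2 - ((b - a) * z.1 + (a + 2 * b) * z.2) * p) ^ 2 = 0 := by
          linear_combination -h1
        exact pow_eq_zero_iff (two_ne_zero) |>.1 this
      -- lambda
      obtain ⟨l, hl1, hl2⟩ : ∃ l : ZMod q, z.1 = l * b ∧ z.2 = l * a := by
        by_cases ha : a = 0
        · have hb : b ≠ 0 := by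
            intro hb; apply hp; rw [hpdef, ha, hb]; ring
          refine ⟨z.1 / b, by field_simp, ?_⟩
          rw [ha] at hm ⊢
          have : b * z.2 = 0 := by linear_combination -hm
          rcases mul_eq_zero.1 this with h | h
          · exact absurd h hb
          · rw [h]; ring
        · refine ⟨z.2 / a, ?_, by field_simp⟩
          field_simp
          linear_combination hm
      have : l * p * (l - p) = 0 := by
        rw [hl1, hl2] at hn
        rw [hpdef] at hn ⊢
        linear_combination hn
      rcases mul_eq_zero.1 this with h | h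
      · rcases mul_eq_zero.1 h with h | h
        · rw [mem_insert]; left
          ext
          · rw [hl1, h]; simp
          · rw [hl2, h]; simp
        · exact absurd h hp
      · have hlp : l = p := by linear_combination h
        rw [mem_insert, mem_singleton]; right
        ext
        · rw [hl1, hlp]
        · rw [hl2, hlp]
    exact (card_le_card hsub).trans card_le_two
  -- the part with `m ≠ 0`
  have hB : (S.filter (fun z => ¬ a * z.1 - b * z.2 = 0)).card ≤ 4 := by
    set c : ZMod q := a + 2 * b with hcdef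
    set s : ZMod q := p * (b - a) with hsdef
    set e3 : ZMod q := -9 * a ^ 2 - 2 * c ^ 2 with he3
    set e2 : ZMod q := -3 * a * s + 9 * a ^ 2 * p + 3 * p * c * (a + b) with he2
    set e1 : ZMod q := 6 * a * p * s - 3 * a * p ^ 2 * c with he1
    set e0 : ZMod q := p * s ^ 2 - p ^ 2 * c * s with he0
    set f : (ZMod q)[X] := C 3 * X ^ 4 + C e3 * X ^ 3 + C e2 * X ^ 2 + C e1 * X + C e0 with hf
    have hdeg : f.natDegree ≤ 4 := by
      rw [hf]; compute_degree
    have hf0 : f ≠ 0 := by
      intro h
      have : f.coeff 4 = 3 := by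
        rw [hf]
        simp [coeff_X, coeff_C]
      rw [h] at this
      simp at this
      exact h3 this.symm
    set τ : ZMod q × ZMod q → ZMod q := fun z =>
      (z.1 ^ 2 + z.1 * z.2 + z.2 ^ 2 - ((b - a) * z.1 + c * z.2) * p) / (2 * (a * z.1 - b * z.2)) with hτ
    have key : ∀ z ∈ S.filter (fun z => ¬ a * z.1 - b * z.2 = 0),
        a * z.1 - b * z.2 = τ z ^ 2 ∧ 2 * z.1 + z.2 = 3 * a * τ z + s ∧
        z.1 ^ 2 + z.1 * z.2 + z.2 ^ 2 - ((b - a) * z.1 + c * z.2) * p = 2 * τ z ^ 3 := by
      intro z hz
      rw [mem_filter] at hz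
      obtain ⟨hzS, hm⟩ := hz
      obtain ⟨h1, h1'⟩ := hS z hzS
      set m : ZMod q := a * z.1 - b * z.2 with hmdef
      set n : ZMod q := z.1 ^ 2 + z.1 * z.2 + z.2 ^ 2 - ((b - a) * z.1 + c * z.2) * p with hndef
      have hn : n = 2 * m * τ z := by
        rw [hτ]
        simp only
        rw [← hmdef, ← hndef]
        field_simp
      have hm2 : m = τ z ^ 2 := by
        have : 4 * m ^ 2 * (m - τ z ^ 2) = 0 := by
          have h1a : 4 * m ^ 3 - n ^ 2 = 0 := h1
          rw [hn] at h1a
          linear_combination h1a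
        rcases mul_eq_zero.1 this with h | h
        · exfalso
          rcases mul_eq_zero.1 h with h | h
          · exact h4 h
          · exact hm (pow_eq_zero_iff (two_ne_zero) |>.1 h)
        · linear_combination h
      have hτ0 : τ z ≠ 0 := by
        intro h
        apply hm
        rw [hm2, h]; ring
      have hn3 : n = 2 * τ z ^ 3 := by
        rw [hn, hm2]; ring
      refine ⟨hm2, ?_, hn3⟩
      have h1b : 12 * m ^ 2 * a - 2 * n * (2 * z.1 + z.2 - p * (b - a)) = 0 := h1'
      rw [hn3, hm2] at h1b
      have : 4 * τ z ^ 3 * (3 * a * τ z - (2 * z.1 + z.2 - s)) = 0 := by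
        rw [hsdef]
        linear_combination h1b
      rcases mul_eq_zero.1 this with h | h
      · exfalso
        rcases mul_eq_zero.1 h with h | h
        · exact h4 h
        · exact hτ0 (pow_eq_zero_iff (three_ne_zero) |>.1 h)
      · linear_combination -h
    have himg : (S.filter (fun z => ¬ a * z.1 - b * z.2 = 0)).image τ ⊆ f.roots.toFinset := by
      intro w hw
      rw [mem_image] at hw
      obtain ⟨z, hz, rfl⟩ := hw
      obtain ⟨k1, k2, k3⟩ := key z hz
      rw [Multiset.mem_toFinset, mem_roots hf0, IsRoot.def, hf]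
      simp only [eval_add, eval_mul, eval_C, eval_pow, eval_X]
      have hx : c * z.1 = τ z ^ 2 + b * (3 * a * τ z + s) := by
        rw [← k1, ← k2, hcdef]; ring
      have hy : c * z.2 = a * (3 * a * τ z + s) - 2 * τ z ^ 2 := by
        rw [← k1, ← k2, hcdef]; ring
      have h5 : (c * z.1) ^ 2 + (c * z.1) * (c * z.2) + (c * z.2) ^ 2 -
          c * ((b - a) * (c * z.1) + c * (c * z.2)) * p = 2 * c ^ 2 * τ z ^ 3 := by
        linear_combination c ^ 2 * k3
      rw [hx, hy] at h5
      rw [he3, he2, he1, he0]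
      rw [hcdef, hsdef, hpdef] at h5 ⊢
      linear_combination h5
    have hinj : Set.InjOn τ (S.filter (fun z => ¬ a * z.1 - b * z.2 = 0) : Set (ZMod q × ZMod q)) := by
      intro z hz w hw hzw
      obtain ⟨k1, k2, -⟩ := key z (by exact_mod_cast hz)
      obtain ⟨l1, l2, -⟩ := key w (by exact_mod_cast hw)
      have hx : c * z.1 = c * w.1 := by
        have e1 : c * z.1 = τ z ^ 2 + b * (3 * a * τ z + s) := by
          rw [← k1, ← k2, hcdef]; ring
        have e2 : c * w.1 = τ w ^ 2 + b * (3 * a * τ w + s) := by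
          rw [← l1, ← l2, hcdef]; ring
        rw [e1, e2, hzw]
      have hy : c * z.2 = c * w.2 := by
        have e1 : c * z.2 = a * (3 * a * τ z + s) - 2 * τ z ^ 2 := by
          rw [← k1, ← k2, hcdef]; ring
        have e2 : c * w.2 = a * (3 * a * τ w + s) - 2 * τ w ^ 2 := by
          rw [← l1, ← l2, hcdef]; ring
        rw [e1, e2, hzw]
      ext
      · exact mul_left_cancel₀ hc hx
      · exact mul_left_cancel₀ hc hy
    calc (S.filter (fun z => ¬ a * z.1 - b * z.2 = 0)).card
        = ((S.filter (fun z => ¬ a * z.1 - b * z.2 = 0)).image τ).card :=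
          (card_image_of_injOn hinj).symm
      _ ≤ f.roots.toFinset.card := card_le_card himg
      _ ≤ Multiset.card f.roots := Multiset.toFinset_card_le _
      _ ≤ f.natDegree := card_roots' f
      _ ≤ 4 := hdeg
  have := card_filter_add_card_filter_not (s := S) (fun z => a * z.1 - b * z.2 = 0)
  omega

end Pool.Agent.H59.C3
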